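import Mathlib
import Pool.Agent.Run7.h610.CXDefs
import Pool.Agent.Run7.h610.CXMain

/-!
# Multiplication in `C(X)` is uniformly open when `dim X ≤ 1`

`Run7.h610.CovDimLE X 1` (file `Pool/Agent/Run7/h610/CXDefs.lean`) says that the Lebesgue covering
dimension of `X` is at most one: every finite open cover has a finite open refinement such that
every point lies in at most two of its members.
-/

namespace Pool.Agent.Results.MP_64150f_an.UniformlyOpen

open scoped Pointwise

/-- For every compact Hausdorff space `X` of covering dimension at most one, all complex valued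
continuous functions `f, g` on `X` and every `ε > 0`, the open ball of radius `ε ^ 2 / 400` about
`f * g` is contained in the product of the open balls of radius `ε` about `f` and about `g`.
In particular multiplication in `C(X, ℂ)` is uniformly open, hence open. -/
theorem result (X : Type*) [TopologicalSpace X] [CompactSpace X] [T2Space X]
    (hX : Run7.h610.CovDimLE X 1) (ε : ℝ) (hε : 0 < ε) (f g : C(X, ℂ)) :
    Metric.ball (f * g) (ε ^ 2 / 400) ⊆ Metric.ball f ε * Metric.ball g ε := by
  intro h hh
  rw [Metric.mem_ball, dist_eq_norm] at hh
  obtain ⟨f', g', hf, hg, hfg⟩ := Run7.h610.uniformly_open f g h hX hε hh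
  refine Set.mem_mul.2 ⟨f', ?_, g', ?_, hfg⟩
  · rw [Metric.mem_ball, dist_eq_norm]; exact hf
  · rw [Metric.mem_ball, dist_eq_norm]; exact hg

end Pool.Agent.Results.MP_64150f_an.UniformlyOpen
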